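import Pool.Agent.J4H50.YP.Stm

set_option autoImplicit false

/-! # Project YP of helper50, job H (helper73): the roots of the b-function -/

namespace Pool.Agent.J4H73.YP

open MvPolynomial
open Pool.Agent.H628R4.TP (IsBFunction)
open Pool.Agent.J4H50.IG (germ)
open Pool.Agent.J4H50.NI
open Pool.Agent.J4H50.YO (NV DR)
open Pool.Agent.N103.V (Ev Ev_of_heq)
open Pool.Agent.J4H50.YP

/-- a de Rham functional excludes the local functional equation (polynomials, no continuity) -/
theorem no_LEv {σ : Type} (F : MvPolynomial σ ℂ) (hF0 : F ≠ 0) (s : ℂ)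
    (hF : MvPowerSeries.constantCoeff (F : MvPowerSeries σ ℂ) = 0)
    (hF' : ∀ i, MvPowerSeries.constantCoeff ((pderiv i F : MvPolynomial σ ℂ) :
      MvPowerSeries σ ℂ) = 0)
    (h : NV (F : MvPowerSeries σ ℂ) s) : ¬ LEv 0 F s := by
  rintro ⟨H, hH, hE⟩
  obtain ⟨α, ⟨-, sft, clo⟩, h0⟩ := h
  obtain ⟨k, hk⟩ := KI_of_Ev s hF0 hE
  have key := KI_ind s (F := F) (fun j q => ∀ a : MvPowerSeries σ ℂ,
    α j (a * (q : MvPowerSeries σ ℂ)) = 0) (fun a => ?_) (fun a => ?_) (fun i a => ?_)
    (fun j a b ha hb c => ?_) (fun j a q hq c => ?_) (fun j q _ hq a => ?_)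
    (fun j i q _ hq a => ?_) k _ hk
  · -- the conclusion
    have hHu : IsUnit (H : MvPowerSeries σ ℂ) := by
      rw [MvPowerSeries.isUnit_iff_constantCoeff, isUnit_iff_ne_zero,
        ← MvPowerSeries.coeff_zero_eq_constantCoeff_apply, MvPolynomial.coeff_coe,
        ← MvPolynomial.constantCoeff_eq]
      intro h1
      apply hH
      rw [MvPolynomial.eval_zero]
      exact h1
    obtain ⟨w, hw⟩ := hHu.exists_left_inv
    have h1 := key w
    have h3 : ∀ j, α j ((F : MvPowerSeries σ ℂ) ^ j) = 1 := by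
      intro j
      induction j with
      | zero => rw [pow_zero, h0, map_one]
      | succ j ih => rw [pow_succ', sft, ih]
    have e : w * ((F ^ k * H : MvPolynomial σ ℂ) : MvPowerSeries σ ℂ) =
        (F : MvPowerSeries σ ℂ) ^ k := by
      rw [MvPolynomial.coe_mul, MvPolynomial.coe_pow, mul_left_comm, hw, mul_one]
    rw [e, h3] at h1
    exact one_ne_zero h1
  · rw [MvPolynomial.coe_zero, mul_zero, map_zero]
  · rw [h0, map_mul, hF, mul_zero]
  · rw [h0, map_mul, hF' i, mul_zero]
  · rw [MvPolynomial.coe_add, mul_add, map_add, ha, hb, add_zero]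
  · rw [MvPolynomial.coe_mul, ← mul_assoc]
    exact hq _
  · rw [MvPolynomial.coe_mul, mul_left_comm, sft]
    exact hq _
  · have h1 := clo j i (a * (q : MvPowerSeries σ ℂ))
    have h2 := sft j (MvPowerSeries.pderiv ℂ i (a * (q : MvPowerSeries σ ℂ)))
    have h3 := sft j (MvPowerSeries.pderiv ℂ i a * (q : MvPowerSeries σ ℂ))
    have h4 := hq (MvPowerSeries.pderiv ℂ i a)
    have e1 : MvPowerSeries.pderiv ℂ i (a * (q : MvPowerSeries σ ℂ)) =
        a * ((pderiv i q : MvPolynomial σ ℂ) : MvPowerSeries σ ℂ) +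
          MvPowerSeries.pderiv ℂ i a * (q : MvPowerSeries σ ℂ) := by
      rw [Derivation.leibniz, smul_eq_mul, smul_eq_mul, MvPowerSeries.pderiv_coe]
      ring
    have e2 : MvPowerSeries.pderiv ℂ i (F : MvPowerSeries σ ℂ) =
        ((pderiv i F : MvPolynomial σ ℂ) : MvPowerSeries σ ℂ) := MvPowerSeries.pderiv_coe _
    have e : a * ((SS s F j i q : MvPolynomial σ ℂ) : MvPowerSeries σ ℂ) =
        (F : MvPowerSeries σ ℂ) * MvPowerSeries.pderiv ℂ i (a * (q : MvPowerSeries σ ℂ)) -
          (F : MvPowerSeries σ ℂ) * (MvPowerSeries.pderiv ℂ i a * (q : MvPowerSeries σ ℂ)) +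
          (s - (j : ℂ)) • (MvPowerSeries.pderiv ℂ i (F : MvPowerSeries σ ℂ) *
            (a * (q : MvPowerSeries σ ℂ))) := by
      rw [e1, e2, SS, MvPolynomial.coe_add, MvPolynomial.coe_mul, MvPolynomial.coe_mul,
        MvPolynomial.coe_mul, MvPolynomial.coe_C, MvPowerSeries.smul_eq_C_mul]
      ring
    rw [e, map_add, map_sub, map_smul, h2, h3, h4, sub_zero, smul_eq_mul]
    exact h1

theorem t_H : S_H := by
  intro V _ f b hf hb x h0 h1 s hNV
  classical
  by_contra hs
  have hE := Ev_of_heq hf (Pool.Agent.N103.heq_of_bfun _ b hb) hs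
  have h2 := LEv_affine hf hE 0 x 1 one_ne_zero (by
    rw [map_one]
    exact one_ne_zero) 1 one_ne_zero
  rw [map_one, one_mul] at h2
  have e3 : (aeval (fun i => 1 * X i + C (x i)) f : MvPolynomial V ℂ) = germ f x := by
    unfold germ
    congr 2
    funext i
    rw [one_mul]
  rw [e3] at h2
  have hne : germ f x ≠ 0 := by
    intro h
    apply hf
    have h3 := congrArg (aeval (fun i => X i - C (x i) : V → MvPolynomial V ℂ)) h
    rw [germ, Pool.Agent.J4H50.IG.aeval_aeval, map_zero] at h3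
    have e : (fun i => aeval (fun i => X i - C (x i) : V → MvPolynomial V ℂ)
        (X i + C (x i))) = X := by
      funext i
      rw [map_add, aeval_X, aeval_C, algebraMap_eq, sub_add_cancel]
    rw [e, aeval_X_left_apply] at h3
    exact h3
  refine no_LEv (germ f x) hne s ?_ (fun i => ?_) hNV h2
  · rw [← MvPowerSeries.coeff_zero_eq_constantCoeff_apply, MvPolynomial.coeff_coe,
      ← MvPolynomial.constantCoeff_eq, Pool.Agent.J4H50.IG.cc_germ, h0]
  · rw [← MvPowerSeries.coeff_zero_eq_constantCoeff_apply, MvPolynomial.coeff_coe,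
      ← MvPolynomial.constantCoeff_eq, Pool.Agent.J4H50.IG.pderiv_germ, Pool.Agent.J4H50.IG.cc_germ, h1]

end Pool.Agent.J4H73.YP
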